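import Pool.Agent.V11142.TC.Lower

/-!
# The Sidorenko exponents of 3-uniform tight cycles
-/

set_option autoImplicit false

namespace Pool.Agent.Results.MP_de2958_co.TightCycleExponent

open Filter Topology
open Pool.Agent.V11142.SidDefs Pool.Agent.V11142.TC
open scoped ENNReal

theorem upper_sqrt {ℓ : ℕ} (hℓ : 400 ≤ ℓ) :
    sidorenkoExponent 3 (tightCycle ℓ) ≤ ENNReal.ofReal (3 * ℓ + 435 * √ℓ + 8) := by
  have hℓR : (400 : ℝ) ≤ ℓ := by exact_mod_cast hℓ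
  have h20 : (20 : ℝ) ≤ √ℓ := by
    rw [show (20 : ℝ) = √(20 ^ 2) by rw [Real.sqrt_sq (by norm_num)]]
    exact Real.sqrt_le_sqrt (by norm_num; linarith)
  have hpos : (0 : ℝ) < √ℓ := by linarith
  have hsq : √(ℓ : ℝ) * √ℓ = ℓ := Real.mul_self_sqrt (by linarith)
  have h1 : 2 + 16 / (√(ℓ : ℝ))⁻¹ ≤ (ℓ : ℝ) := by
    rw [div_inv_eq_mul]
    nlinarith
  refine (upper (δ := (√(ℓ : ℝ))⁻¹) (by positivity) h1).trans ?_
  apply ENNReal.ofReal_le_ofReal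
  have h2 : (√(ℓ : ℝ))⁻¹ * ℓ = √ℓ := by
    nth_rewrite 2 [← hsq]
    field_simp
  have h3 : 8 + 432 / (√(ℓ : ℝ))⁻¹ + 3 * (1 + (√(ℓ : ℝ))⁻¹) * ℓ =
      8 + 432 * √ℓ + 3 * ℓ + 3 * ((√(ℓ : ℝ))⁻¹ * ℓ) := by
    rw [div_inv_eq_mul]
    ring
  rw [h3, h2]
  linarith

theorem upper_tendsto :
    Tendsto (fun ℓ : ℕ => ENNReal.ofReal (3 + 435 * (√(ℓ : ℝ))⁻¹ + 8 * (ℓ : ℝ)⁻¹)) atTop
      (𝓝 3) := by
  have h1 : Tendsto (fun ℓ : ℕ => (√(ℓ : ℝ))⁻¹) atTop (𝓝 0) :=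
    tendsto_inv_atTop_zero.comp (Real.tendsto_sqrt_atTop.comp tendsto_natCast_atTop_atTop)
  have h2 : Tendsto (fun ℓ : ℕ => ((ℓ : ℝ))⁻¹) atTop (𝓝 0) :=
    tendsto_inv_atTop_zero.comp tendsto_natCast_atTop_atTop
  have h3 : Tendsto (fun ℓ : ℕ => 3 + 435 * (√(ℓ : ℝ))⁻¹ + 8 * (ℓ : ℝ)⁻¹) atTop
      (𝓝 (3 + 435 * 0 + 8 * 0)) :=
    (tendsto_const_nhds.add (h1.const_mul 435)).add (h2.const_mul 8)
  have h4 := ENNReal.tendsto_ofReal h3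
  have h5 : ENNReal.ofReal (3 + 435 * 0 + 8 * 0) = 3 := by
    norm_num
  rwa [h5] at h4

theorem lower_tendsto :
    Tendsto (fun ℓ : ℕ => ENNReal.ofReal (3 - 5 * (1 / ((ℓ : ℝ) + 1)))) atTop (𝓝 3) := by
  have h1 : Tendsto (fun ℓ : ℕ => 1 / ((ℓ : ℝ) + 1)) atTop (𝓝 0) :=
    tendsto_one_div_add_atTop_nhds_zero_nat
  have h3 : Tendsto (fun ℓ : ℕ => 3 - 5 * (1 / ((ℓ : ℝ) + 1))) atTop (𝓝 (3 - 5 * 0)) :=
    tendsto_const_nhds.sub (h1.const_mul 5)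
  have h4 := ENNReal.tendsto_ofReal h3
  have h5 : ENNReal.ofReal (3 - 5 * 0) = 3 := by
    norm_num
  rwa [h5] at h4

/-- **The Sidorenko exponents of 3-uniform tight cycles.**  The Sidorenko exponent of the
3-uniform tight cycle on `3 ℓ` vertices is `(3 + o(1)) ℓ`; moreover it is at most
`3 ℓ + 435 √ℓ + 8` for all `ℓ ≥ 400`. -/
theorem result :
    Tendsto (fun ℓ : ℕ => sidorenkoExponent 3 (tightCycle ℓ) / (ℓ : ℝ≥0∞)) atTop (𝓝 3) ∧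
    ∀ ℓ : ℕ, 400 ≤ ℓ →
      sidorenkoExponent 3 (tightCycle ℓ) ≤ ENNReal.ofReal (3 * ℓ + 435 * √ℓ + 8) := by
  refine ⟨?_, fun ℓ hℓ => upper_sqrt hℓ⟩
  refine tendsto_of_tendsto_of_tendsto_of_le_of_le' lower_tendsto upper_tendsto ?_ ?_
  · filter_upwards [eventually_ge_atTop 3] with ℓ hℓ
    have hℓR : (3 : ℝ) ≤ ℓ := by exact_mod_cast hℓ
    have hpos : (0 : ℝ) < ℓ := by linarith
    have h1 := ENNReal.div_le_div_right (lower hℓ hℓ) (ℓ : ℝ≥0∞)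
    refine le_trans (le_of_eq ?_) h1
    have h2 : (ℓ : ℝ≥0∞) = ENNReal.ofReal (ℓ : ℝ) := (ENNReal.ofReal_natCast ℓ).symm
    rw [h2, ← ENNReal.ofReal_div_of_pos hpos]
    congr 1
    field_simp
    ring
  · filter_upwards [eventually_ge_atTop 400] with ℓ hℓ
    have hℓR : (400 : ℝ) ≤ ℓ := by exact_mod_cast hℓ
    have hpos : (0 : ℝ) < ℓ := by linarith
    have h1 := ENNReal.div_le_div_right (upper_sqrt hℓ) (ℓ : ℝ≥0∞)
    refine le_trans h1 (le_of_eq ?_)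
    have h2 : (ℓ : ℝ≥0∞) = ENNReal.ofReal (ℓ : ℝ) := (ENNReal.ofReal_natCast ℓ).symm
    rw [h2, ← ENNReal.ofReal_div_of_pos hpos]
    congr 1
    have hsq : √(ℓ : ℝ) * √ℓ = ℓ := Real.mul_self_sqrt (by linarith)
    have hs : √(ℓ : ℝ) ≠ 0 := (Real.sqrt_pos.2 hpos).ne'
    have h3 : √(ℓ : ℝ) / ℓ = (√(ℓ : ℝ))⁻¹ := by
      nth_rewrite 2 [← hsq]
      field_simp
    rw [← h3]
    field_simp

end Pool.Agent.Results.MP_de2958_co.TightCycleExponent
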